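import Mathlib
import Pool.Agent.LeoC.UpStmts
import Pool.Agent.Helper91_LeoK.Cone

/-!
# CON: properties of the cone (arbitrary number field)
-/

set_option autoImplicit false

open NumberField NumberField.InfinitePlace NumberField.mixedEmbedding IsDedekindDomain Module
  MeasureTheory Filter Topology
open Pool.Agent.LeoK Pool.Agent.LeoG

open scoped Classical Pointwise

namespace Pool.Agent.LeoC.H91

variable {k : Type} [Field k] [NumberField k]

theorem nr_smul (x : PS k) (t : ℝ) : nr (t • x) = t ^ finrank ℚ k * nr x := by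
  unfold nr
  simp only [Pi.smul_apply, smul_eq_mul, mul_pow, Finset.prod_mul_distrib]
  rw [Finset.prod_pow_eq_pow_sum, sum_mult_eq]

theorem nr_pos (x : PS k) (hx : ∀ v, 0 < x v) : 0 < nr x :=
  Finset.prod_pos fun v _ => pow_pos (hx v) _

theorem gm_pow (x : PS k) (hx : ∀ v, 0 < x v) :
    ∏ v : InfinitePlace k, (nr x ^ (1 / finrank ℚ k : ℝ)) ^ v.mult = nr x := by
  rw [Finset.prod_pow_eq_pow_sum, sum_mult_eq, one_div,
    Real.rpow_inv_natCast_pow (nr_pos x hx).le finrank_pos.ne']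

theorem exists_le_gm (x : PS k) (hx : ∀ v, 0 < x v) :
    ∃ v, x v ≤ nr x ^ (1 / finrank ℚ k : ℝ) := by
  by_contra h
  push Not at h
  have h1 : 0 < nr x ^ (1 / finrank ℚ k : ℝ) := Real.rpow_pos_of_pos (nr_pos x hx) _
  have h2 : ∏ v : InfinitePlace k, (nr x ^ (1 / finrank ℚ k : ℝ)) ^ v.mult <
      ∏ v : InfinitePlace k, x v ^ v.mult :=
    Finset.prod_lt_prod_of_nonempty (fun v _ => pow_pos h1 _)
      (fun v _ => pow_lt_pow_left₀ (h v) h1.le mult_ne_zero) Finset.univ_nonempty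
  rw [gm_pow x hx] at h2
  exact lt_irrefl _ h2

theorem exists_gm_le (x : PS k) (hx : ∀ v, 0 < x v) :
    ∃ v, nr x ^ (1 / finrank ℚ k : ℝ) ≤ x v := by
  by_contra h
  push Not at h
  have h2 : ∏ v : InfinitePlace k, x v ^ v.mult <
      ∏ v : InfinitePlace k, (nr x ^ (1 / finrank ℚ k : ℝ)) ^ v.mult :=
    Finset.prod_lt_prod_of_nonempty (fun v _ => pow_pos (hx v) _)
      (fun v _ => pow_lt_pow_left₀ (h v) (hx v).le mult_ne_zero) Finset.univ_nonempty
  rw [gm_pow x hx] at h2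
  exact lt_irrefl _ h2

/-- The truncated cone. -/
def FT (Φ : CFrame k) (T : ℝ) : Set (PS k) := Φ.F ∩ {x | nr x ≤ T}

/-- The weight. -/
noncomputable def wg (x : PS k) : ENNReal :=
  ∏ v : InfinitePlace k, ENNReal.ofReal (x v ^ (v.mult - 1))

theorem cov_pos : 0 < cov k := by
  unfold cov
  apply ENNReal.toReal_pos
  · exact ZSpan.measure_fundamentalDomain_ne_zero _
  · exact (ZSpan.fundamentalDomain_isBounded _).measure_lt_top.ne

theorem F_nonempty (Φ : CFrame k) : Φ.F.Nonempty := by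
  obtain ⟨η, h⟩ := Φ.exi (fun _ => 1) (fun _ => one_pos)
  exact ⟨_, h⟩

theorem one_le_cF (Φ : CFrame k) : 1 ≤ Φ.cF := by
  obtain ⟨v⟩ : Nonempty (InfinitePlace k) := inferInstance
  obtain ⟨x, hx⟩ := F_nonempty Φ
  have h1 := Φ.cmp x hx v v
  have h2 := Φ.pos x hx v
  by_contra h3
  push Not at h3
  nlinarith

theorem cone_cmp (Φ : CFrame k) (x : PS k) (hx : x ∈ Φ.F) (v : InfinitePlace k) :
    x v ≤ Φ.cF * nr x ^ (1 / finrank ℚ k : ℝ) ∧ nr x ^ (1 / finrank ℚ k : ℝ) ≤ Φ.cF * x v := by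
  have hc := one_le_cF Φ
  obtain ⟨s1, h1⟩ := exists_le_gm x (Φ.pos x hx)
  obtain ⟨s2, h2⟩ := exists_gm_le x (Φ.pos x hx)
  refine ⟨(Φ.cmp x hx v s1).trans ?_, h2.trans (Φ.cmp x hx s2 v)⟩
  exact mul_le_mul_of_nonneg_left h1 (by linarith)

theorem FT_bounded (Φ : CFrame k) (T : ℝ) : Bornology.IsBounded (FT Φ T) := by
  apply (Metric.isBounded_Icc (0 : PS k) (fun _ => Φ.cF * T ^ (1 / finrank ℚ k : ℝ))).subset
  intro x hx
  have hc := one_le_cF Φ
  have h0 : 0 < nr x := nr_pos x (Φ.pos x hx.1)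
  refine ⟨fun v => (Φ.pos x hx.1 v).le, fun v => ?_⟩
  refine (cone_cmp Φ x hx.1 v).1.trans ?_
  apply mul_le_mul_of_nonneg_left _ (by linarith)
  exact Real.rpow_le_rpow h0.le hx.2 (by positivity)

theorem FT_eq_smul (Φ : CFrame k) (T : ℝ) (hT : 0 < T) :
    FT Φ T = (T ^ (1 / finrank ℚ k : ℝ)) • FT Φ 1 := by
  have ht : 0 < T ^ (1 / finrank ℚ k : ℝ) := Real.rpow_pos_of_pos hT _
  have hpow : (T ^ (1 / finrank ℚ k : ℝ)) ^ finrank ℚ k = T := by
    rw [one_div, Real.rpow_inv_natCast_pow hT.le finrank_pos.ne']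
  ext x
  rw [Set.mem_smul_set_iff_inv_smul_mem₀ ht.ne']
  have hprod : nr ((T ^ (1 / finrank ℚ k : ℝ))⁻¹ • x) = T⁻¹ * nr x := by
    rw [nr_smul, inv_pow, hpow]
  constructor
  · intro hx
    refine ⟨Φ.scal x hx.1 _ (inv_pos.mpr ht), ?_⟩
    show nr ((T ^ (1 / finrank ℚ k : ℝ))⁻¹ • x) ≤ 1
    rw [hprod, inv_mul_le_iff₀ hT, mul_one]
    exact hx.2
  · intro hx
    have h2 : nr ((T ^ (1 / finrank ℚ k : ℝ))⁻¹ • x) ≤ 1 := hx.2
    rw [hprod, inv_mul_le_iff₀ hT, mul_one] at h2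
    refine ⟨?_, h2⟩
    have h3 := Φ.scal _ hx.1 _ ht
    rwa [smul_inv_smul₀ ht.ne'] at h3

theorem frontier_null_one (Φ : CFrame k) : volume (frontier (FT Φ 1)) = 0 := Φ.null

theorem frontier_null (Φ : CFrame k) (T : ℝ) (hT : 0 < T) : volume (frontier (FT Φ T)) = 0 := by
  have ht : 0 < T ^ (1 / finrank ℚ k : ℝ) := Real.rpow_pos_of_pos hT _
  have h1 : frontier (FT Φ T) = (T ^ (1 / finrank ℚ k : ℝ)) • frontier (FT Φ 1) := by
    rw [FT_eq_smul Φ T hT, frontier, frontier, closure_smul₀, interior_smul₀ ht.ne',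
      Set.smul_set_sdiff₀ ht.ne']
  rw [h1, Measure.addHaar_smul, frontier_null_one, mul_zero]

theorem closure_ae (Φ : CFrame k) (T : ℝ) (hT : 0 < T) :
    (closure (FT Φ T) : Set (PS k)) =ᵐ[volume] FT Φ T := by
  have h : volume (closure (FT Φ T) \ FT Φ T) = 0 :=
    measure_mono_null (Set.sdiff_subset_sdiff_right interior_subset) (frontier_null Φ T hT)
  refine ae_eq_set.mpr ⟨h, ?_⟩
  rw [Set.sdiff_eq_empty.mpr subset_closure, measure_empty]

theorem measurable_wg : Measurable (wg (k := k)) := by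
  unfold wg
  apply Finset.measurable_prod
  intro v _
  exact ENNReal.measurable_ofReal.comp ((measurable_pi_apply v).pow_const _)

theorem wg_smul (c : ℝ) (hc : 0 < c) (x : PS k) :
    wg (c • x) * ENNReal.ofReal (c ^ Fintype.card (InfinitePlace k)) =
      ENNReal.ofReal (c ^ finrank ℚ k) * wg x := by
  have h1 : ∀ v : InfinitePlace k, ENNReal.ofReal ((c • x) v ^ (v.mult - 1)) =
      ENNReal.ofReal (c ^ (v.mult - 1)) * ENNReal.ofReal (x v ^ (v.mult - 1)) := by
    intro v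
    rw [Pi.smul_apply, smul_eq_mul, mul_pow, ENNReal.ofReal_mul (by positivity)]
  unfold wg
  simp only [h1]
  rw [Finset.prod_mul_distrib]
  have h2 : ∏ v : InfinitePlace k, ENNReal.ofReal (c ^ (v.mult - 1)) =
      ENNReal.ofReal (∏ v : InfinitePlace k, c ^ (v.mult - 1)) := by
    rw [ENNReal.ofReal_prod_of_nonneg (fun v _ => by positivity)]
  have h3 : (∏ v : InfinitePlace k, c ^ (v.mult - 1)) * c ^ Fintype.card (InfinitePlace k) =
      c ^ finrank ℚ k := by
    rw [← sum_mult_eq, ← Finset.prod_pow_eq_pow_sum, ← Finset.card_univ,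
      ← Finset.prod_const, ← Finset.prod_mul_distrib]
    refine Finset.prod_congr rfl fun v _ => ?_
    rw [← pow_succ, Nat.sub_add_cancel mult_pos]
  rw [h2, mul_right_comm, ← ENNReal.ofReal_mul (Finset.prod_nonneg fun v _ => by positivity), h3]

theorem lintegral_smul (S : Set (PS k)) (hS : MeasurableSet S) (c : ℝ) (hc : 0 < c) :
    ∫⁻ x in c • S, wg x = ENNReal.ofReal (c ^ finrank ℚ k) * ∫⁻ x in S, wg x := by
  have hcS : MeasurableSet (c • S) := hS.const_smul₀ c
  have hd : finrank ℝ (PS k) = Fintype.card (InfinitePlace k) := Module.finrank_fintype_fun_eq_card ℝ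
  have h1 := Measure.map_addHaar_smul (volume : Measure (PS k)) hc.ne'
  have hpos : 0 < c ^ Fintype.card (InfinitePlace k) := by positivity
  rw [hd, abs_of_pos (by positivity)] at h1
  have h2 : ∫⁻ x, (c • S).indicator wg (c • x) =
      ENNReal.ofReal ((c ^ Fintype.card (InfinitePlace k))⁻¹) * ∫⁻ x, (c • S).indicator wg x := by
    rw [← smul_eq_mul, ← lintegral_smul_measure, ← h1,
      lintegral_map (measurable_wg.indicator hcS) (measurable_const_smul c)]
  have h3 : ∀ x, (c • S).indicator wg (c • x) * ENNReal.ofReal (c ^ Fintype.card (InfinitePlace k)) =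
      ENNReal.ofReal (c ^ finrank ℚ k) * S.indicator wg x := by
    intro x
    by_cases hx : x ∈ S
    · rw [Set.indicator_of_mem hx, Set.indicator_of_mem (Set.smul_mem_smul_set hx), wg_smul c hc]
    · rw [Set.indicator_of_notMem hx, Set.indicator_of_notMem, zero_mul, mul_zero]
      rwa [Set.smul_mem_smul_set_iff₀ hc.ne']
  have h4 : (∫⁻ x, (c • S).indicator wg (c • x)) *
      ENNReal.ofReal (c ^ Fintype.card (InfinitePlace k)) =
      ENNReal.ofReal (c ^ finrank ℚ k) * ∫⁻ x, S.indicator wg x := by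
    rw [← lintegral_mul_const' _ _ ENNReal.ofReal_ne_top,
      ← lintegral_const_mul' _ _ ENNReal.ofReal_ne_top]
    exact lintegral_congr h3
  rw [h2, mul_comm, ← mul_assoc, ← ENNReal.ofReal_mul hpos.le, mul_inv_cancel₀ hpos.ne',
    ENNReal.ofReal_one, one_mul, lintegral_indicator hcS, lintegral_indicator hS] at h4
  exact h4

theorem F_meas (Φ : CFrame k) (T : ℝ) : MeasurableSet (FT Φ T) := by
  refine Φ.meas.inter (measurableSet_le ?_ measurable_const)
  unfold nr
  exact Finset.measurable_prod _ fun v _ => (measurable_pi_apply v).pow_const _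

theorem lint_lt_top (Φ : CFrame k) (T : ℝ) : ∫⁻ x in FT Φ T, wg x < ⊤ := by
  obtain ⟨R, hR⟩ := (FT_bounded Φ T).exists_norm_le
  have hvol := (FT_bounded Φ T).measure_lt_top (μ := (volume : Measure (PS k)))
  have h1 : ∫⁻ x in FT Φ T, wg x ≤
      ∫⁻ _x in FT Φ T, ∏ v : InfinitePlace k, ENNReal.ofReal (R ^ (v.mult - 1)) := by
    apply setLIntegral_mono' (F_meas Φ T)
    intro x hx
    apply Finset.prod_le_prod'
    intro v _
    apply ENNReal.ofReal_le_ofReal
    apply pow_le_pow_left₀ (Φ.pos x hx.1 v).le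
    have := norm_le_pi_norm x v
    rw [Real.norm_of_nonneg (Φ.pos x hx.1 v).le] at this
    exact this.trans (hR x hx)
  refine h1.trans_lt ?_
  rw [setLIntegral_const]
  exact ENNReal.mul_lt_top (ENNReal.prod_lt_top fun v _ => ENNReal.ofReal_lt_top) hvol

theorem lint_FT (Φ : CFrame k) (T : ℝ) (hT : 0 < T) :
    ∫⁻ x in FT Φ T, wg x = ENNReal.ofReal (Φ.w * T) := by
  have ht : 0 < T ^ (1 / finrank ℚ k : ℝ) := Real.rpow_pos_of_pos hT _
  have hpow : (T ^ (1 / finrank ℚ k : ℝ)) ^ finrank ℚ k = T := by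
    rw [one_div, Real.rpow_inv_natCast_pow hT.le finrank_pos.ne']
  rw [FT_eq_smul Φ T hT, lintegral_smul _ (F_meas Φ 1) _ ht, hpow, mul_comm,
    ENNReal.ofReal_mul (by unfold CFrame.w; exact ENNReal.toReal_nonneg)]
  congr 1
  have : Φ.w = (∫⁻ x in FT Φ 1, wg x).toReal := rfl
  rw [this, ENNReal.ofReal_toReal (lint_lt_top Φ 1).ne]

theorem countable_units : Countable (𝓞 k)ˣ := by
  have h1 : Countable (𝓞 k) := (RingOfIntegers.basis k).equivFun.toEquiv.injective.countable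
  exact Units.val_injective.countable

theorem nr_unit (η : (𝓞 k)ˣ) (x : PS k) :
    nr (fun v => v ((η : 𝓞 k) : k) ^ 2 * x v) = nr x := by
  unfold nr
  have h1 : ∏ v : InfinitePlace k, v ((η : 𝓞 k) : k) ^ v.mult = 1 := by
    rw [prod_eq_abs_norm]
    have := isUnit_iff_norm.mp η.isUnit
    rw [RingOfIntegers.coe_norm] at this
    rw [this]
    norm_num
  simp only [mul_pow, Finset.prod_mul_distrib]
  have h2 : ∏ v : InfinitePlace k, (v ((η : 𝓞 k) : k) ^ 2) ^ v.mult =
      (∏ v : InfinitePlace k, v ((η : 𝓞 k) : k) ^ v.mult) ^ 2 := by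
    rw [← Finset.prod_pow]
    exact Finset.prod_congr rfl fun v _ => by rw [← pow_mul, ← pow_mul, mul_comm]
  rw [h2, h1, one_pow, one_mul]

theorem w_pos (Φ : CFrame k) : 0 < Φ.w := by
  have hcount := countable_units (k := k)
  have hw : Φ.w = (∫⁻ x in FT Φ 1, wg x).toReal := rfl
  rw [hw]
  refine ENNReal.toReal_pos ?_ (lint_lt_top Φ 1).ne
  intro h0
  have h1 : volume (FT Φ 1) = 0 := by
    rw [lintegral_eq_zero_iff measurable_wg] at h0
    have h2 : ∀ᵐ x ∂(volume.restrict (FT Φ 1)), False := by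
      filter_upwards [h0, ae_restrict_mem (F_meas Φ 1)] with x hx hx2
      have h3 : wg x ≠ 0 := by
        unfold wg
        rw [Finset.prod_ne_zero_iff]
        intro v _
        have := Φ.pos x hx2.1 v
        have h4 : 0 < x v ^ (v.mult - 1) := by positivity
        exact (ENNReal.ofReal_pos.mpr h4).ne'
      exact h3 hx
    rw [ae_iff] at h2
    simpa using h2
  have hsub : (Set.pi Set.univ fun _ : InfinitePlace k => Set.Ioo (0 : ℝ) 1) ⊆
      ⋃ η : (𝓞 k)ˣ, {x : PS k | (fun v => v ((η : 𝓞 k) : k) ^ 2) * x ∈ FT Φ 1} := by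
    intro x hx
    rw [Set.mem_univ_pi] at hx
    obtain ⟨η, hη⟩ := Φ.exi x (fun s => (hx s).1)
    rw [Set.mem_iUnion]
    refine ⟨η, hη, ?_⟩
    show nr (fun v => v ((η : 𝓞 k) : k) ^ 2 * x v) ≤ 1
    rw [nr_unit]
    exact Finset.prod_le_one (fun v _ => pow_nonneg (hx v).1.le _)
      (fun v _ => pow_le_one₀ (hx v).1.le (hx v).2.le)
  have hnull : volume (⋃ η : (𝓞 k)ˣ,
      {x : PS k | (fun v => v ((η : 𝓞 k) : k) ^ 2) * x ∈ FT Φ 1}) = 0 := by
    rw [measure_iUnion_null_iff]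
    intro η
    apply Pool.Agent.LeoK.H91.null_preimage_mul _ _ _ h1
    intro v
    apply pow_ne_zero
    rw [Ne, map_eq_zero]
    exact fun h => η.ne_zero (RingOfIntegers.ext h)
  have h2 := measure_mono_null hsub hnull
  rw [Pool.Agent.LeoK.H91.cube_volume] at h2
  exact one_ne_zero h2

/-- CON. -/
theorem con : ConStmt := by
  intro k _ _ Φ
  refine ⟨cov_pos, w_pos Φ, one_le_cF Φ, fun x hx v => cone_cmp Φ x hx v, nr_smul,
    fun T hT => ⟨FT_bounded Φ T, lint_FT Φ T hT, ?_, ?_⟩⟩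
  · rw [← lint_FT Φ T hT]
    exact setLIntegral_congr (closure_ae Φ T hT)
  · rw [← lint_FT Φ T hT]
    have h : volume (FT Φ T \ interior (FT Φ T)) = 0 :=
      measure_mono_null (Set.sdiff_subset_sdiff_left subset_closure) (frontier_null Φ T hT)
    have h' : volume (interior (FT Φ T) \ FT Φ T) = 0 := by
      rw [Set.sdiff_eq_empty.mpr interior_subset, measure_empty]
    exact setLIntegral_congr (ae_eq_set.mpr ⟨h', h⟩)

end Pool.Agent.LeoC.H91
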