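import Mathlib
import Pool.Agent.LeoC.UpStmts

/-!
# UPP: the main upper bound (arbitrary number field)
-/

set_option autoImplicit false

open NumberField NumberField.InfinitePlace NumberField.mixedEmbedding IsDedekindDomain Module
  MeasureTheory Filter Topology
open Pool.Agent.LeoK Pool.Agent.LeoG

open scoped Classical

namespace Pool.Agent.LeoC.H91

theorem gval_scale (u : ℂ) (v : Q4 ℂ) (X Y : ℂ) :
    gval (fun i => u * v i) X Y = u * gval v X Y := by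
  unfold gval
  ring

theorem gcov_scale (u : ℂ) (v : Q4 ℂ) (X Y : ℂ) :
    gcov (fun i => u * v i) X Y = u ^ 3 * gcov v X Y := by
  unfold gcov
  ring

theorem mm_scale {A : Type} [CommRing A] (u : A) (v : Q4 A) :
    mm (fun i => u * v i) = u ^ 4 * mm v := by
  unfold mm dsc
  ring

theorem cpow_scale (u : ℝ) (hu : 0 < u) (z : ℂ) :
    ((u : ℂ) ^ 4 * z) ^ (1 / 2 : ℂ) = (u : ℂ) ^ 2 * z ^ (1 / 2 : ℂ) := by
  rcases eq_or_ne z 0 with rfl | hz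
  · rw [mul_zero, Complex.zero_cpow (by norm_num), mul_zero]
  have hu4 : ((u : ℂ) ^ 4) = ((u ^ 4 : ℝ) : ℂ) := by push_cast; ring
  have hu0 : (u : ℂ) ≠ 0 := by exact_mod_cast hu.ne'
  rw [Complex.cpow_def_of_ne_zero (mul_ne_zero (pow_ne_zero 4 hu0) hz), hu4,
    Complex.log_ofReal_mul (by positivity) hz, add_mul, Complex.exp_add,
    Complex.cpow_def_of_ne_zero hz]
  congr 1
  rw [Real.log_pow]
  have h1 : (((4 : ℕ) : ℝ) * Real.log u : ℝ) * (1 / 2 : ℂ) = ((2 * Real.log u : ℝ) : ℂ) := by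
    push_cast
    ring
  rw [h1, ← Complex.ofReal_exp]
  have h2 : Real.exp (2 * Real.log u) = u ^ 2 := by
    rw [two_mul, Real.exp_add, Real.exp_log hu]
    ring
  rw [h2]
  push_cast
  ring

theorem hc_scale (u : ℝ) (hu : 0 < u) (v : Q4 ℂ) (X Y : ℂ) :
    hc (fun i => (u : ℂ) * v i) X Y = hc v X Y := by
  have hu0 : (u : ℂ) ≠ 0 := by exact_mod_cast hu.ne'
  have h1 : (27 * ((u : ℂ) ^ 4 * mm v)) ^ (1 / 2 : ℂ) = (u : ℂ) ^ 2 * (27 * mm v) ^ (1 / 2 : ℂ) := by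
    rw [← cpow_scale u hu, mul_left_comm]
  have h3 : (u : ℂ) ^ 3 * gcov v X Y / ((u : ℂ) ^ 2 * (27 * mm v) ^ (1 / 2 : ℂ)) =
      u * (gcov v X Y / (27 * mm v) ^ (1 / 2 : ℂ)) := by
    rw [show (u : ℂ) ^ 3 * gcov v X Y = (u : ℂ) ^ 2 * ((u : ℂ) * gcov v X Y) by ring,
      mul_div_mul_left _ _ (pow_ne_zero 2 hu0), mul_div_assoc]
  have h4 : (‖(u : ℂ) ^ 4 * mm v‖ / 27) ^ (1 / 6 : ℝ) =
      u ^ (2 / 3 : ℝ) * (‖mm v‖ / 27) ^ (1 / 6 : ℝ) := by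
    rw [norm_mul, norm_pow, Complex.norm_real, Real.norm_of_nonneg hu.le, mul_div_assoc,
      Real.mul_rpow (by positivity) (by positivity), ← Real.rpow_natCast u 4,
      ← Real.rpow_mul hu.le]
    norm_num
  have h5 : ∀ a : ℂ, ‖(u : ℂ) * a / 2‖ ^ (2 / 3 : ℝ) = u ^ (2 / 3 : ℝ) * ‖a / 2‖ ^ (2 / 3 : ℝ) := by
    intro a
    rw [mul_div_assoc, norm_mul, Complex.norm_real, Real.norm_of_nonneg hu.le,
      Real.mul_rpow hu.le (norm_nonneg _)]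
  have h6 : 0 < u ^ (2 / 3 : ℝ) := Real.rpow_pos_of_pos hu _
  unfold hc
  rw [gval_scale, gcov_scale, mm_scale, h1, h3, h4, ← mul_add, ← mul_sub, h5, h5, ← mul_add,
    show 2 * (u ^ (2 / 3 : ℝ) * (‖mm v‖ / 27) ^ (1 / 6 : ℝ)) =
      u ^ (2 / 3 : ℝ) * (2 * (‖mm v‖ / 27) ^ (1 / 6 : ℝ)) by ring, mul_div_mul_left _ _ h6.ne']

variable {k : Type} [Field k] [NumberField k]

theorem mm_em (g : Q4 (𝓞 k)) : (mm (em g) : MS k) = mixedEmbedding k ((mm g : 𝓞 k) : k) := by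
  unfold mm dsc em
  simp only [map_sub, map_mul, map_pow, map_ofNat, map_neg, map_add]

theorem smul_fun (u : ℝ) (g : Fin 4 → MS k) :
    u • g = fun i => (algebraMap ℝ (MS k) u) * g i := by
  funext i
  rw [Pi.smul_apply, Algebra.smul_def]

theorem mm_w (g : Fin 4 → MS k) (u : ℝ) : (mm (u • g) : MS k) = u ^ 4 • mm g := by
  rw [smul_fun, mm_scale, Algebra.smul_def, map_pow]

theorem upp (ket : KetStmt) (sf4 : Sf4Stmt) (con : ConStmt) (evs : EvsStmt) : UppStmt := by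
  intro k _ _ Φ N I hI S T η ε hT hη hη1 hε
  obtain ⟨hD, hvF, hcF, hcmp, hnr, -⟩ := con k Φ
  obtain ⟨e1, e2, e3, e4, e5, e6, e7, e8, e9⟩ := evs k
  have hn : 0 < finrank ℚ k := finrank_pos
  have hη2 : 0 < η * (η ^ (1 / finrank ℚ k : ℝ) / Φ.cF) ^ (1 / 4 : ℝ) := by positivity
  obtain ⟨K, hK, hKvol, hKmem⟩ := ket k Φ N T
    (min η (η * (η ^ (1 / finrank ℚ k : ℝ) / Φ.cF) ^ (1 / 4 : ℝ))) hT (lt_min hη hη2)
  obtain ⟨t₀, ht₀, hcount⟩ := sf4 k I hI S K hK ε hε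
  refine ⟨max 1 (t₀ ^ (4 * finrank ℚ k)), le_max_left _ _, ?_⟩
  intro Z hZ
  have hZ1 : 1 ≤ Z := (le_max_left _ _).trans hZ
  have hZ0 : 0 < Z := by linarith
  have hZt : t₀ ^ (4 * finrank ℚ k) ≤ Z := (le_max_right _ _).trans hZ
  have hn4 : 4 * finrank ℚ k ≠ 0 := by omega
  obtain ⟨t, ht0, htZ⟩ : ∃ t : ℝ, 0 < t ∧ t ^ (4 * finrank ℚ k) = Z := by
    refine ⟨Z ^ (((4 * finrank ℚ k : ℕ) : ℝ)⁻¹), Real.rpow_pos_of_pos hZ0 _, ?_⟩
    rw [Real.rpow_inv_natCast_pow hZ0.le hn4]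
  have htt : t₀ ≤ t := by
    rw [← htZ] at hZt
    exact (pow_le_pow_iff_left₀ ht₀.le ht0.le hn4).mp hZt
  obtain ⟨hfin, hle⟩ := hcount t htt
  rw [htZ] at hle
  have hsub : {g : Q4 (𝓞 k) | modQ I g ∈ S ∧ CReg Φ N (FD k) Z T g ∧
        (∀ v : InfinitePlace k, η * v ((mm g : 𝓞 k) : k) ^ (1 / 4 : ℝ) ≤ v (g 0 : k)) ∧
        η * Z ≤ nr (av (mixedEmbedding k ((mm g : 𝓞 k) : k)))} ⊆
      {g : Q4 (𝓞 k) | modQ I g ∈ S ∧ t⁻¹ • em g ∈ K} := by
    rintro g ⟨hgS, hR, ha, hZη⟩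
    refine ⟨hgS, ?_⟩
    have hu : 0 < t⁻¹ := inv_pos.mpr ht0
    have hu4 : 0 < t⁻¹ ^ 4 := by positivity
    have hnv : ∀ v : InfinitePlace k, ‖v.embedding (g 0 : k)‖ = v (g 0 : k) := fun v =>
      norm_embedding_eq v _
    have hM : ∀ v : InfinitePlace k, 0 < v ((mm g : 𝓞 k) : k) := fun v => by
      have := Φ.pos _ hR.mF v
      rwa [e8] at this
    -- scaling of the vector of absolute values
    have hav : ∀ (y : MS k) (c : ℝ), 0 < c → av (c • y) = c • av y := by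
      intro y c hc
      funext v
      show ‖ev v (c • y)‖ = c * ‖ev v y‖
      rw [e3, norm_mul, Complex.norm_real, Real.norm_of_nonneg hc.le]
    have hmw : (mm (t⁻¹ • em g) : MS k) = t⁻¹ ^ 4 • mixedEmbedding k ((mm g : 𝓞 k) : k) := by
      rw [mm_w, mm_em]
    have hwF : t⁻¹ ^ 4 • av (mixedEmbedding k ((mm g : 𝓞 k) : k)) ∈ Φ.F :=
      Φ.scal _ hR.mF (t⁻¹ ^ 4) hu4
    have hprod : nr (t⁻¹ ^ 4 • av (mixedEmbedding k ((mm g : 𝓞 k) : k))) =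
        nr (av (mixedEmbedding k ((mm g : 𝓞 k) : k))) / Z := by
      rw [hnr, ← pow_mul, inv_pow, htZ, inv_mul_eq_div]
    have hprodη : η ≤ nr (t⁻¹ ^ 4 • av (mixedEmbedding k ((mm g : 𝓞 k) : k))) := by
      rw [hprod, le_div_iff₀ hZ0]
      exact hZη
    have hfv : ∀ v : InfinitePlace k, fv v (t⁻¹ • em g) =
        fun i => ((t⁻¹ : ℝ) : ℂ) * fv v (em g) i := by
      intro v
      funext i
      show ev v (t⁻¹ • em g i) = _
      rw [e3]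
      rfl
    have hsz : sz (t⁻¹ • em g) = sz (em g) := by
      funext v
      show hc (fv v (t⁻¹ • em g)) 1 0 = hc (fv v (em g)) 1 0
      rw [hfv, hc_scale _ hu]
    apply hKmem
    · intro v
      refine (min_le_right _ _).trans ?_
      have h0 : ‖ev v ((t⁻¹ • em g) 0)‖ = t⁻¹ * v (g 0 : k) := by
        show ‖ev v (t⁻¹ • em g 0)‖ = _
        rw [e3, norm_mul, Complex.norm_real, Real.norm_of_nonneg hu.le]
        show t⁻¹ * ‖ev v (mixedEmbedding k (g 0 : k))‖ = _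
        rw [e1, hnv]
      rw [h0]
      have h1 : η ^ (1 / finrank ℚ k : ℝ) / Φ.cF ≤ t⁻¹ ^ 4 * v ((mm g : 𝓞 k) : k) := by
        rw [div_le_iff₀ (by linarith), mul_comm]
        have h2 := (hcmp _ hwF v).2
        rw [Pi.smul_apply, smul_eq_mul, e8] at h2
        refine le_trans ?_ h2
        exact Real.rpow_le_rpow hη.le hprodη (by positivity)
      have h2 : (η ^ (1 / finrank ℚ k : ℝ) / Φ.cF) ^ (1 / 4 : ℝ) ≤
          (t⁻¹ ^ 4 * v ((mm g : 𝓞 k) : k)) ^ (1 / 4 : ℝ) :=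
        Real.rpow_le_rpow (by positivity) h1 (by norm_num)
      have h3 : (t⁻¹ ^ 4 * v ((mm g : 𝓞 k) : k)) ^ (1 / 4 : ℝ) =
          t⁻¹ * v ((mm g : 𝓞 k) : k) ^ (1 / 4 : ℝ) := by
        rw [Real.mul_rpow (by positivity) (hM v).le, ← Real.rpow_natCast t⁻¹ 4,
          ← Real.rpow_mul hu.le]
        norm_num
      calc η * (η ^ (1 / finrank ℚ k : ℝ) / Φ.cF) ^ (1 / 4 : ℝ)
          ≤ η * (t⁻¹ * v ((mm g : 𝓞 k) : k) ^ (1 / 4 : ℝ)) := by
            rw [← h3]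
            exact mul_le_mul_of_nonneg_left h2 hη.le
        _ = t⁻¹ * (η * v ((mm g : 𝓞 k) : k) ^ (1 / 4 : ℝ)) := by ring
        _ ≤ t⁻¹ * v (g 0 : k) := mul_le_mul_of_nonneg_left (ha v) hu.le
    · rw [hmw]
      obtain ⟨s1, s2⟩ := hR.sgn
      refine ⟨fun w => ⟨fun hw => ?_, fun hw => ?_⟩, fun w => ?_⟩
      · rw [Prod.smul_fst, Pi.smul_apply, smul_eq_mul]
        exact mul_neg_of_pos_of_neg hu4 ((s1 w).1 hw)
      · rw [Prod.smul_fst, Pi.smul_apply, smul_eq_mul]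
        exact mul_pos hu4 ((s1 w).2 hw)
      · rw [Prod.smul_snd, Pi.smul_apply]
        exact smul_ne_zero hu4.ne' (s2 w)
    · have h : ((t⁻¹ • em g) 1 / (3 * (t⁻¹ • em g) 0) : MS k) = em g 1 / (3 * em g 0) := by
        show (t⁻¹ • em g 1) / (3 * (t⁻¹ • em g 0)) = em g 1 / (3 * em g 0)
        apply e5
        intro v
        have h3 : ∀ y : MS k, ev v (3 * y) = 3 * ev v y := by
          intro y
          have h4 := e4 v 3
          rw [(e2 v _ _).2.1]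
          have h5 : ((3 : ℕ) : MS k) = 3 := by norm_num
          rw [h5] at h4
          rw [h4]
          norm_num
        rw [(e2 v _ _).2.2.2, (e2 v _ _).2.2.2, h3, h3, e3, e3]
        have hu' : ((t⁻¹ : ℝ) : ℂ) ≠ 0 := by exact_mod_cast hu.ne'
        rw [show 3 * (((t⁻¹ : ℝ) : ℂ) * ev v (em g 0)) =
          ((t⁻¹ : ℝ) : ℂ) * (3 * ev v (em g 0)) by ring, mul_div_mul_left _ _ hu']
      rw [h]
      exact hR.bG
    · rw [hsz]
      exact hR.xF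
    · rw [hsz]
      exact hR.xT
    · rw [hmw, hav _ _ hu4]
      exact hwF
    · rw [hmw, hav _ _ hu4]
      exact (min_le_left _ _).trans hprodη
    · rw [hmw, hav _ _ hu4, hprod, div_le_one hZ0]
      exact hR.mZ
  refine ⟨hfin.subset hsub, ?_⟩
  have h1 : ({g : Q4 (𝓞 k) | modQ I g ∈ S ∧ CReg Φ N (FD k) Z T g ∧
        (∀ v : InfinitePlace k, η * v ((mm g : 𝓞 k) : k) ^ (1 / 4 : ℝ) ≤ v (g 0 : k)) ∧
        η * Z ≤ nr (av (mixedEmbedding k ((mm g : 𝓞 k) : k)))}.ncard : ℝ) ≤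
      ({g : Q4 (𝓞 k) | modQ I g ∈ S ∧ t⁻¹ • em g ∈ K}.ncard : ℝ) :=
    Nat.cast_le.mpr (Set.ncard_le_ncard hsub hfin)
  refine h1.trans (hle.trans ?_)
  apply mul_le_mul_of_nonneg_right _ hZ0.le
  have h2 : (S.ncard : ℝ) / (Ideal.absNorm I : ℝ) ^ 4 * (volume K).toReal / cov k ^ 4 ≤
      (S.ncard : ℝ) / (Ideal.absNorm I : ℝ) ^ 4 *
        (Real.pi ^ finrank ℚ k / 3 ^ un N * cov k * (T * Φ.w) *
        ((2 * Real.pi) ^ nrComplexPlaces k * Φ.w)) / cov k ^ 4 := by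
    apply div_le_div_of_nonneg_right _ (by positivity)
    exact mul_le_mul_of_nonneg_left hKvol (by positivity)
  have h3 : (S.ncard : ℝ) / (Ideal.absNorm I : ℝ) ^ 4 *
        (Real.pi ^ finrank ℚ k / 3 ^ un N * cov k * (T * Φ.w) *
        ((2 * Real.pi) ^ nrComplexPlaces k * Φ.w)) / cov k ^ 4 =
      (S.ncard : ℝ) / (Ideal.absNorm I : ℝ) ^ 4 *
        (Real.pi ^ finrank ℚ k / 3 ^ un N * (2 * Real.pi) ^ nrComplexPlaces k * T * Φ.w ^ 2 /
            cov k ^ 3) := by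
    rw [mul_div_assoc]
    congr 1
    field_simp
  rw [h3] at h2
  linarith

end Pool.Agent.LeoC.H91
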